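import Mathlib
import Pool.Agent.H30.CpG

set_option autoImplicit false

namespace Pool.Agent.Results.MP_c4a8f9_gt.Q1

open Pool.Agent.H30.CpG

theorem result : ∃ (G : Type) (_ : Group G) (_ : TopologicalSpace G) (_ : IsTopologicalGroup G)
    (X Y : Type) (_ : TopologicalSpace X) (_ : TopologicalSpace Y),
    T2Space G ∧ Nontrivial G ∧ T35Space X ∧ T35Space Y ∧ Nonempty X ∧ Nonempty Y ∧
    Nonempty (Cp X G ≃ₜ* Cp Y G) ∧ Dense (Cp X G : Set (X → G)) ∧ Dense (Cp Y G : Set (Y → G)) ∧
    SSP X ∧ ¬ SSP Y :=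
  ⟨G, inferInstance, inferInstance, inferInstance, Unit, ℕ, inferInstance, inferInstance,
    inferInstance, inferInstance, inferInstance, inferInstance, inferInstance, inferInstance,
    ⟨iso⟩, dense _, dense _, ssp_unit, not_ssp⟩

end Pool.Agent.Results.MP_c4a8f9_gt.Q1
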